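import Mathlib

/-!
# Always-marking 1-limited automata: words with the same behaviour
-/

set_option autoImplicit false

namespace Pool.Agent.Y527.AM

open Relation

/-- always-marking 1-limited automata: moves at the left end-marker, at the right end-marker, on
unvisited cells and on visited cells, the initial state and the final states -/
structure Aut (Q A : Type) where
  L : Q → Finset (Q × Bool)
  R : Q → Finset (Q × Bool)
  U : Q → A → Finset (Q × Bool)
  M : Q → A → Finset (Q × Bool)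
  I : Q
  F : Finset Q

variable {Q A : Type}

/-- the moves between configurations (state, position, number of visited cells) -/
def step (N : Aut Q A) (w : List A) (x y : Q × ℕ × ℕ) : Prop :=
  (x.2.1 = 0 ∧ (y.1, true) ∈ N.L x.1 ∧ y.2.1 = 1 ∧ y.2.2 = x.2.2) ∨
  (x.2.1 = w.length + 1 ∧ (y.1, false) ∈ N.R x.1 ∧
    y.2.1 = w.length ∧ y.2.2 = x.2.2) ∨
  (∃ a : A, 1 ≤ x.2.1 ∧ w[x.2.1 - 1]? = some a ∧
    ∃ b : Bool,
      (y.1, b) ∈ (if x.2.1 ≤ x.2.2 then N.M x.1 a else N.U x.1 a) ∧
      y.2.1 = (if b then x.2.1 + 1 else x.2.1 - 1) ∧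
      y.2.2 = max x.2.2 x.2.1)

/-- acceptance -/
def acc (N : Aut Q A) (w : List A) : Prop :=
  ∃ q : Q, ∃ i j : ℕ, ReflTransGen (step N w) (N.I, 1, 0) (q, i, j) ∧
    i = w.length + 1 ∧ ∃ q' ∈ N.F, (q', true) ∈ N.R q

/-- the moves without the right end-marker -/
def St (N : Aut Q A) (w : List A) (x y : Q × ℕ × ℕ) : Prop :=
  (x.2.1 = 0 ∧ (y.1, true) ∈ N.L x.1 ∧ y.2.1 = 1 ∧ y.2.2 = x.2.2) ∨
  (∃ a : A, 1 ≤ x.2.1 ∧ w[x.2.1 - 1]? = some a ∧
    ∃ b : Bool,
      (y.1, b) ∈ (if x.2.1 ≤ x.2.2 then N.M x.1 a else N.U x.1 a) ∧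
      y.2.1 = (if b then x.2.1 + 1 else x.2.1 - 1) ∧
      y.2.2 = max x.2.2 x.2.1)

/-- the moves on visited cells -/
def Mk (N : Aut Q A) (w : List A) (x y : Q × ℕ) : Prop :=
  (x.2 = 0 ∧ (y.1, true) ∈ N.L x.1 ∧ y.2 = 1) ∨
  (∃ a : A, 1 ≤ x.2 ∧ w[x.2 - 1]? = some a ∧
    ∃ b : Bool, (y.1, b) ∈ N.M x.1 a ∧ y.2 = (if b then x.2 + 1 else x.2 - 1))

/-- the moves on visited cells inside a word which starts at position `2` -/
def Lt (N : Aut Q A) (w : List A) (x y : Q × ℕ) : Prop :=
  ∃ a : A, 2 ≤ x.2 ∧ w[x.2 - 2]? = some a ∧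
    ∃ b : Bool, (y.1, b) ∈ N.M x.1 a ∧ y.2 = (if b then x.2 + 1 else x.2 - 1)

/-- the states in which the cell after the prefix can be entered first -/
def Ent (N : Aut Q A) (u : List A) (q : Q) : Prop :=
  ReflTransGen (St N u) (N.I, 1, 0) (q, u.length + 1, u.length)

/-- the excursions into the visited prefix -/
def Exc (N : Aut Q A) (u : List A) (p q : Q) : Prop :=
  ReflTransGen (Mk N u) (p, u.length) (q, u.length + 1)

/-- the position of entry -/
def posE (l : ℕ) (b : Bool) : ℕ := if b then 2 else l + 1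
/-- the position of exit -/
def posX (l : ℕ) (b : Bool) : ℕ := if b then 1 else l + 2

/-- the behaviour of a visited word (from position `2`) -/
def Beh (N : Aut Q A) (y : List A) (e d : Bool × Q) : Prop :=
  ReflTransGen (Lt N y) (e.2, posE y.length e.1) (d.2, posX y.length d.1)

theorem surgery {C : Type} {S1 S2 : C → C → Prop} (I E : C → Prop) (s : C)
    (hs : I s → E s) (hE : ∀ c d, ¬ I c → I d → S1 c d → E d)
    (hout : ∀ c d, ¬ I c → S1 c d → S2 c d)
    (hin : ∀ e d, E e → ¬ I d → ReflTransGen (fun x y => I x ∧ S1 x y) e d →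
      ReflTransGen S2 e d) :
    ∀ c, ¬ I c → ReflTransGen S1 s c → ReflTransGen S2 s c := by
  have key : ∀ c, ReflTransGen S1 s c → (¬ I c → ReflTransGen S2 s c) ∧
      (I c → ∃ e, E e ∧ ReflTransGen S2 s e ∧ ReflTransGen (fun x y => I x ∧ S1 x y) e c) := by
    intro c hc
    induction hc with
    | refl => exact ⟨fun _ => ReflTransGen.refl, fun h => ⟨s, hs h, ReflTransGen.refl,
        ReflTransGen.refl⟩⟩
    | @tail c d _ hcd ih =>
      by_cases hI : I c
      · obtain ⟨e, h1, h2, h3⟩ := ih.2 hI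
        have h4 := h3.tail (⟨hI, hcd⟩ : I c ∧ S1 c d)
        exact ⟨fun hd => h2.trans (hin e d h1 hd h4), fun _ => ⟨e, h1, h2, h4⟩⟩
      · have h1 := (ih.1 hI).tail (hout c d hI hcd)
        exact ⟨fun _ => h1, fun hd => ⟨d, hE c d hI hd hcd, h1, ReflTransGen.refl⟩⟩
  exact fun c hc h => (key c h).1 hc

theorem St.step {N : Aut Q A} {u : List A} {x y : Q × ℕ × ℕ} (h : St N u x y) (v : List A) :
    step N (u ++ v) x y := by
  rcases h with h | ⟨a, h1, h2, h3⟩
  · exact Or.inl h
  · refine Or.inr (Or.inr ⟨a, h1, ?_, h3⟩)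
    have h4 : x.2.1 - 1 < u.length := by
      by_contra hc
      rw [List.getElem?_eq_none (by omega)] at h2
      cases h2
    rw [List.getElem?_append_left h4, h2]

theorem inner_start {N : Aut Q A} {u v : List A} {d : Q × ℕ × ℕ}
    (h : ReflTransGen (fun x y : Q × ℕ × ℕ => x.2.1 ≤ u.length ∧ step N (u ++ v) x y)
      (N.I, 1, 0) d) :
    ReflTransGen (St N u) (N.I, 1, 0) d ∧ d.2.1 ≤ d.2.2 + 1 ∧ d.2.2 ≤ u.length ∧
      d.2.1 ≤ u.length + 1 := by
  induction h with
  | refl => exact ⟨ReflTransGen.refl, by simp, by simp, by simp⟩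
  | @tail c d _ hcd ih =>
    obtain ⟨h1, h2, h3, h4⟩ := ih
    obtain ⟨h5, h6 | h6 | h6⟩ := hcd
    · refine ⟨h1.tail (Or.inl h6), ?_, ?_, ?_⟩ <;> omega
    · have := h6.1
      rw [List.length_append] at this
      omega
    · obtain ⟨a, ha, hl, b, hb, hp, hj⟩ := h6
      rw [List.getElem?_append_left (by omega)] at hl
      refine ⟨h1.tail (Or.inr ⟨a, ha, hl, b, hb, hp, hj⟩), ?_, ?_, ?_⟩
      · rw [hp, hj]
        split_ifs <;> omega
      · rw [hj]; omega
      · rw [hp]
        split_ifs <;> omega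

theorem inner_back {N : Aut Q A} {u v : List A} {p : Q} {j : ℕ} (hj : u.length ≤ j)
    {d : Q × ℕ × ℕ}
    (h : ReflTransGen (fun x y : Q × ℕ × ℕ => x.2.1 ≤ u.length ∧ step N (u ++ v) x y)
      (p, u.length, j) d) :
    ReflTransGen (Mk N u) (p, u.length) (d.1, d.2.1) ∧ d.2.2 = j ∧ d.2.1 ≤ u.length + 1 := by
  induction h with
  | refl => exact ⟨ReflTransGen.refl, rfl, by simp⟩
  | @tail c d _ hcd ih =>
    obtain ⟨h1, h2, h3⟩ := ih
    obtain ⟨h5, h6 | h6 | h6⟩ := hcd
    · refine ⟨h1.tail (Or.inl ⟨h6.1, h6.2.1, h6.2.2.1⟩), ?_, ?_⟩ <;> omega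
    · have := h6.1
      rw [List.length_append] at this
      omega
    · obtain ⟨a, ha, hl, b, hb, hp, hj'⟩ := h6
      rw [List.getElem?_append_left (by omega)] at hl
      rw [if_pos (by omega)] at hb
      refine ⟨h1.tail (Or.inr ⟨a, ha, hl, b, hb, hp⟩), ?_, ?_⟩
      · rw [hj']; omega
      · rw [hp]
        split_ifs <;> omega

theorem lift_back {N : Aut Q A} {u : List A} (v : List A) {j : ℕ} (hj : u.length ≤ j)
    {x y : Q × ℕ} (h : ReflTransGen (Mk N u) x y) :
    ReflTransGen (step N (u ++ v)) (x.1, x.2, j) (y.1, y.2, j) := by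
  have key : ∀ c d : Q × ℕ, Mk N u c d → step N (u ++ v) (c.1, c.2, j) (d.1, d.2, j) := ?_
  · exact ReflTransGen.lift (fun c : Q × ℕ => (c.1, c.2, j)) key _ _ h
  rintro c d (hcd | ⟨a, ha, hl, b, hb, hp⟩)
  · exact Or.inl ⟨hcd.1, hcd.2.1, hcd.2.2, rfl⟩
  · have h4 : c.2 - 1 < u.length := by
      by_contra hc
      rw [List.getElem?_eq_none (by omega)] at hl
      cases hl
    refine Or.inr (Or.inr ⟨a, ha, ?_, b, ?_, hp, ?_⟩)
    · rw [List.getElem?_append_left h4]
      exact hl
    · rw [if_pos (show c.2 ≤ j by omega)]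
      exact hb
    · show j = max j c.2
      omega

/-- Prefixes with the same entries and excursions can be exchanged. -/
theorem acc_of_same {N : Aut Q A} {u u' v : List A} (hlen : u.length = u'.length)
    (hu : 1 ≤ u.length) (hv : v ≠ []) (hE : ∀ q, Ent N u q → Ent N u' q)
    (hX : ∀ p q, Exc N u p q → Exc N u' p q) (h : acc N (u ++ v)) : acc N (u' ++ v) := by
  obtain ⟨q, i, j, h1, h2, h3⟩ := h
  have hvl : 1 ≤ v.length := by
    cases v with
    | nil => exact absurd rfl hv
    | cons a v => simp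
  refine ⟨q, i, j, ?_, ?_, h3⟩
  swap
  · rw [h2, List.length_append, List.length_append, hlen]
  refine surgery (fun c : Q × ℕ × ℕ => c.2.1 ≤ u.length)
    (fun c => c = (N.I, 1, 0) ∨ ∃ p j, c = (p, u.length, j) ∧ u.length ≤ j) (N.I, 1, 0)
    (fun _ => Or.inl rfl) ?_ ?_ ?_ (q, i, j) ?_ h1
  · rintro c d hc hd (h4 | h4 | ⟨a, ha, hl, b, hb, hp, hj⟩)
    · omega
    · rw [List.length_append] at h4
      omega
    · right
      refine ⟨d.1, d.2.2, ?_, ?_⟩
      · have : d.2.1 = u.length := by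
          rw [hp] at hd ⊢
          split_ifs at hd ⊢ <;> omega
        rw [← this]
      · rw [hj]
        omega
  · rintro c d hc (h4 | h4 | ⟨a, ha, hl, b, hb, hp, hj⟩)
    · omega
    · refine Or.inr (Or.inl ?_)
      rw [List.length_append, ← hlen, ← List.length_append]
      exact h4
    · refine Or.inr (Or.inr ⟨a, ha, ?_, b, hb, hp, hj⟩)
      rw [List.getElem?_append_right (by omega)] at hl
      rw [List.getElem?_append_right (by omega), ← hlen]
      exact hl
  · rintro e d (rfl | ⟨p, j', rfl, hj'⟩) hd h5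
    · obtain ⟨h6, h7, h8, h9⟩ := inner_start h5
      obtain ⟨d1, d2, d3⟩ := d
      simp only at h7 h8 h9 hd
      obtain rfl : d2 = u.length + 1 := by omega
      obtain rfl : d3 = u.length := by omega
      have h10 := hE d1 h6
      unfold Ent at h10
      rw [← hlen] at h10
      exact ReflTransGen.mono (fun x y hxy => St.step hxy v) _ _ h10
    · obtain ⟨h6, h7, h8⟩ := inner_back hj' h5
      obtain ⟨d1, d2, d3⟩ := d
      simp only at h6 h7 h8 hd
      obtain rfl : d2 = u.length + 1 := by omega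
      subst h7
      have h10 := hX p d1 h6
      unfold Exc at h10
      rw [← hlen] at h10
      exact lift_back v (by omega) h10
  · show ¬ i ≤ u.length
    rw [h2, List.length_append]
    omega

/-- The excursions are determined by the first letter and the behaviour of the rest. -/
theorem exc_of_same {N : Aut Q A} (D : A) {y y' : List A} (hlen : y.length = y'.length)
    (hy : 1 ≤ y.length) (hB : ∀ e d, Beh N y e d → Beh N y' e d) {p q : Q}
    (h : Exc N (D :: y) p q) : Exc N (D :: y') p q := by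
  unfold Exc at h ⊢
  rw [List.length_cons] at h ⊢
  rw [← hlen]
  refine surgery (fun c : Q × ℕ => 2 ≤ c.2 ∧ c.2 ≤ y.length + 1)
    (fun c => ∃ b : Bool, ∃ p, c = (p, posE y.length b)) _
    (fun _ => ⟨false, p, rfl⟩) ?_ ?_ ?_ _ ?_ h
  · rintro c d hc hd (h4 | ⟨a, ha, hl, b, hb, hp⟩)
    · omega
    · refine ⟨true, d.1, ?_⟩
      have h5 : c.2 - 1 < (D :: y).length := by
        by_contra hcon
        rw [List.getElem?_eq_none (by omega)] at hl
        cases hl
      rw [List.length_cons] at h5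
      have h6 : d.2 = 2 := by
        rw [hp] at hd ⊢
        split_ifs at hd ⊢ <;> omega
      rw [posE, if_pos rfl, ← h6]
  · rintro c d hc (h4 | ⟨a, ha, hl, b, hb, hp⟩)
    · exact Or.inl h4
    · refine Or.inr ⟨a, ha, ?_, b, hb, hp⟩
      have h5 : c.2 - 1 < (D :: y).length := by
        by_contra hcon
        rw [List.getElem?_eq_none (by omega)] at hl
        cases hl
      rw [List.length_cons] at h5
      have h6 : c.2 = 1 := by omega
      rw [h6] at hl ⊢
      simpa using hl
  · rintro e d ⟨b, p', rfl⟩ hd h5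
    have h6 : ReflTransGen (Lt N y) (p', posE y.length b) d ∧ 1 ≤ d.2 ∧ d.2 ≤ y.length + 2 := by
      clear hd
      induction h5 with
      | refl =>
        refine ⟨ReflTransGen.refl, ?_, ?_⟩ <;> (simp only [posE]; split_ifs <;> omega)
      | @tail c d _ hcd ih =>
        obtain ⟨⟨h7, h8⟩, h9 | ⟨a, ha, hl, b, hb, hp⟩⟩ := hcd
        · omega
        · refine ⟨ih.1.tail ⟨a, h7, ?_, b, hb, hp⟩, ?_, ?_⟩
          · rw [List.getElem?_cons] at hl
            rw [if_neg (by omega)] at hl
            rw [← hl]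
            congr 1
          · rw [hp]
            split_ifs <;> omega
          · rw [hp]
            split_ifs <;> omega
    obtain ⟨h7, h8, h9⟩ := h6
    have h10 : ∃ b' : Bool, d.2 = posX y.length b' := by
      rcases Nat.lt_or_ge d.2 2 with h | h
      · exact ⟨true, by rw [posX, if_pos rfl]; omega⟩
      · exact ⟨false, by rw [posX, if_neg (by simp)]; omega⟩
    obtain ⟨b', hb'⟩ := h10
    have h11 : Beh N y (b, p') (b', d.1) := by
      unfold Beh
      rw [← hb']
      exact h7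
    have h12 := hB _ _ h11
    unfold Beh at h12
    rw [← hlen, ← hb'] at h12
    refine ReflTransGen.mono ?_ _ _ h12
    rintro x z ⟨a, h13, h14, b, h15, h16⟩
    refine Or.inr ⟨a, by omega, ?_, b, h15, h16⟩
    rw [List.getElem?_cons, if_neg (by omega), ← h14]
    congr 1
  · show ¬ (2 ≤ y.length + 1 + 1 ∧ y.length + 1 + 1 ≤ y.length + 1)
    omega

end Pool.Agent.Y527.AM
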