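import Pool.Agent.Y527.AM.Base

/-!
# Always-marking 1-limited automata: the counting argument
-/

set_option autoImplicit false

namespace Pool.Agent.Y527.AM

open Relation

variable {Q A : Type}

/-- deterministic automata -/
structure Det (N : Aut Q A) : Prop where
  L : ∀ p, (N.L p).card ≤ 1
  R : ∀ p, (N.R p).card ≤ 1
  U : ∀ p a, (N.U p a).card ≤ 1
  M : ∀ p a, (N.M p a).card ≤ 1

theorem uniq_of_card {α : Type} {s : Finset α} (h : s.card ≤ 1) {x y : α} (hx : x ∈ s)
    (hy : y ∈ s) : x = y := Finset.card_le_one.1 h x hx y hy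

theorem st_uniq {N : Aut Q A} (hN : Det N) (u : List A) {x y z : Q × ℕ × ℕ} (h : St N u x y)
    (h' : St N u x z) : y = z := by
  obtain ⟨y1, y2, y3⟩ := y
  obtain ⟨z1, z2, z3⟩ := z
  rcases h with ⟨h1, h2, h3, h4⟩ | ⟨a, ha, hl, b, hb, hp, hj⟩ <;>
  rcases h' with ⟨h1', h2', h3', h4'⟩ | ⟨a', ha', hl', b', hb', hp', hj'⟩
  · have := uniq_of_card (hN.L _) h2 h2'
    simp only [Prod.mk.injEq] at this ⊢
    simp only at h3 h4 h3' h4'
    exact ⟨this.1, by omega, by omega⟩
  · omega
  · omega
  · rw [hl] at hl'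
    cases hl'
    have hcard : (if x.2.1 ≤ x.2.2 then N.M x.1 a else N.U x.1 a).card ≤ 1 := by
      split_ifs
      · exact hN.M _ _
      · exact hN.U _ _
    have := uniq_of_card hcard hb hb'
    simp only [Prod.mk.injEq] at this ⊢
    obtain ⟨h5, h6⟩ := this
    subst h6
    simp only at hp hp' hj hj'
    exact ⟨h5, by rw [hp, hp'], by rw [hj, hj']⟩

theorem lt_uniq {N : Aut Q A} (hN : Det N) (u : List A) {x y z : Q × ℕ} (h : Lt N u x y)
    (h' : Lt N u x z) : y = z := by
  obtain ⟨y1, y2⟩ := y
  obtain ⟨z1, z2⟩ := z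
  obtain ⟨a, ha, hl, b, hb, hp⟩ := h
  obtain ⟨a', ha', hl', b', hb', hp'⟩ := h'
  rw [hl] at hl'
  cases hl'
  have := uniq_of_card (hN.M _ _) hb hb'
  simp only [Prod.mk.injEq] at this ⊢
  obtain ⟨h5, h6⟩ := this
  subst h6
  simp only at hp hp'
  exact ⟨h5, by rw [hp, hp']⟩

/-- two reachable terminal points are equal -/
theorem terminal_uniq {C : Type} {S : C → C → Prop} (hS : ∀ x y z, S x y → S x z → y = z)
    {a b c : C} (hb : ReflTransGen S a b) (hc : ReflTransGen S a c) (hb' : ∀ x, ¬ S b x)
    (hc' : ∀ x, ¬ S c x) : b = c := by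
  have hu : Relator.RightUnique S := fun x y z h h' => hS x y z h h'
  rcases ReflTransGen.total_of_right_unique hu hb hc with h | h
  · rcases ReflTransGen.cases_head h with h | ⟨x, hx, _⟩
    · exact h
    · exact absurd hx (hb' x)
  · rcases ReflTransGen.cases_head h with h | ⟨x, hx, _⟩
    · exact h.symm
    · exact absurd hx (hc' x)

theorem ent_uniq {N : Aut Q A} (hN : Det N) {u : List A} {p q : Q} (hp : Ent N u p)
    (hq : Ent N u q) : p = q := by
  have key : ∀ (r : Q) (x : Q × ℕ × ℕ), ¬ St N u (r, u.length + 1, u.length) x := by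
    rintro r x (h | ⟨a, ha, hl, _⟩)
    · simp at h
    · simp at hl
  unfold Ent at hp hq
  have := terminal_uniq (S := St N u) (fun x y z => st_uniq hN u) hp hq (key _) (key _)
  exact congrArg Prod.fst this

theorem beh_uniq {N : Aut Q A} (hN : Det N) {y : List A} {e d d' : Bool × Q}
    (h : Beh N y e d) (h' : Beh N y e d') : d = d' := by
  have key : ∀ (r : Q) (b : Bool) (x : Q × ℕ), ¬ Lt N y (r, posX y.length b) x := by
    rintro r b x ⟨a, ha, hl, _⟩
    cases b
    · simp only [posX] at hl
      simp at hl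
    · simp only [posX] at ha
      simp at ha
  unfold Beh at h h'
  have h1 := terminal_uniq (S := Lt N y) (fun x y z => lt_uniq hN _) h h' (key _ _) (key _ _)
  obtain ⟨b, q⟩ := d
  obtain ⟨b', q'⟩ := d'
  simp only [Prod.mk.injEq] at h1 ⊢
  refine ⟨?_, h1.1⟩
  have h2 := h1.2
  cases b <;> cases b' <;> simp [posX] at h2 ⊢

open Classical in
/-- the partial function with a given graph -/
noncomputable def opt {α : Type} (P : α → Prop) : Option α :=
  if h : ∃ x, P x then some h.choose else none

theorem opt_iff {α : Type} {P : α → Prop} (hP : ∀ x y, P x → P y → x = y) (x : α) :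
    opt P = some x ↔ P x := by
  unfold opt
  split_ifs with h
  · constructor
    · intro h1
      rw [← Option.some.inj h1]
      exact h.choose_spec
    · intro h1
      rw [hP _ _ h1 h.choose_spec]
  · constructor
    · intro h1
      cases h1
    · intro h1
      exact absurd ⟨x, h1⟩ h

/-- The lower bound: an automaton which, after the letter `D i` and the word `Y F`, can still
decide membership in `F i`, for all `i` and `F`, has many states. -/
theorem lower [Fintype Q] {X : Type} [Fintype X] (r : ℕ) {N : Aut Q A} (hN : Det N) (D : X → A)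
    (Y : (X → Finset (Fin r)) → List A) (l : ℕ) (hY : ∀ F, (Y F).length = l) (hl : 1 ≤ l)
    (z : Fin r → A) (h : ∀ F i j, acc N (D i :: Y F ++ [z j]) ↔ j ∈ F i) :
    (2 ^ r) ^ Fintype.card X ≤ (2 * Fintype.card Q + 1) ^ (2 * Fintype.card Q) *
      (Fintype.card Q + 1) ^ Fintype.card X := by
  classical
  let Φ : (X → Finset (Fin r)) → (Bool × Q → Option (Bool × Q)) × (X → Option Q) := fun F =>
    (fun e => opt (fun d => Beh N (Y F) e d), fun i => opt (fun q => Ent N (D i :: Y F) q))
  have hinj : Function.Injective Φ := by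
    intro F G hFG
    have h1 : ∀ e d, Beh N (Y F) e d ↔ Beh N (Y G) e d := by
      intro e d
      rw [← opt_iff (fun x y hx hy => beh_uniq hN hx hy) d,
        ← opt_iff (P := fun d => Beh N (Y G) e d) (fun x y hx hy => beh_uniq hN hx hy) d]
      have := congrFun (congrArg Prod.fst hFG) e
      simp only [Φ] at this
      rw [this]
    have h2 : ∀ i q, Ent N (D i :: Y F) q ↔ Ent N (D i :: Y G) q := by
      intro i q
      rw [← opt_iff (fun x y hx hy => ent_uniq hN hx hy) q,
        ← opt_iff (P := fun q => Ent N (D i :: Y G) q) (fun x y hx hy => ent_uniq hN hx hy) q]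
      have := congrFun (congrArg Prod.snd hFG) i
      simp only [Φ] at this
      rw [this]
    have h3 : ∀ i p q, Exc N (D i :: Y F) p q ↔ Exc N (D i :: Y G) p q := fun i p q =>
      ⟨exc_of_same (D i) (by rw [hY, hY]) (by rw [hY]; exact hl) (fun e d => (h1 e d).1),
        exc_of_same (D i) (by rw [hY, hY]) (by rw [hY]; exact hl) (fun e d => (h1 e d).2)⟩
    funext i
    ext j
    rw [← h F i j, ← h G i j]
    exact ⟨acc_of_same (by simp [hY]) (by simp) (by simp) (fun q => (h2 i q).1)
        (fun p q => (h3 i p q).1),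
      acc_of_same (by simp [hY]) (by simp) (by simp) (fun q => (h2 i q).2)
        (fun p q => (h3 i p q).2)⟩
  have hc := Fintype.card_le_of_injective Φ hinj
  rw [Fintype.card_fun, Fintype.card_finset, Fintype.card_fin, Fintype.card_prod,
    Fintype.card_fun, Fintype.card_fun, Fintype.card_option, Fintype.card_option,
    Fintype.card_prod, Fintype.card_bool] at hc
  exact hc

end Pool.Agent.Y527.AM
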