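import Pool.Agent.Y527.AM.Wit

/-!
# Always-marking 1-limited automata: the words
-/

set_option autoImplicit false

namespace Pool.Agent.Y527.AM

variable {r : ℕ}

/-- the states between the blocks -/
def base (T : Fin r → Prop) : Qs r → Prop
  | .s => True
  | .C j => T j
  | _ => False

/-- the states inside a block -/
def mid (T : Fin r → Prop) (t : Fin (r + 1)) (c : Prop) : Qs r → Prop
  | .s => True
  | .C j => T j
  | .P t' => c ∧ t' = t
  | _ => False

theorem nx_b (i : Fin r → Bool) (T : Fin r → Prop) : nx i (base T) .b = mid T 0 True := by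
  funext q
  apply propext
  constructor
  · rintro ⟨p, hp, h⟩
    cases p with
    | s =>
      rcases h with rfl | rfl
      · exact trivial
      · exact ⟨trivial, rfl⟩
    | C j => rw [h]; exact hp
    | f => exact hp.elim
    | P t => exact hp.elim
    | K t v => exact hp.elim
  · intro h
    cases q with
    | s => exact ⟨.s, trivial, Or.inl rfl⟩
    | C j => exact ⟨.C j, h, rfl⟩
    | f => exact h.elim
    | P t => exact ⟨.s, trivial, Or.inr (by rw [h.2])⟩
    | K t v => exact h.elim

theorem nx_τ (i : Fin r → Bool) (T : Fin r → Prop) (t : Fin r) (v : Bool) (c : Prop) :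
    nx i (mid T t.castSucc c) (.τ v) = mid T t.succ (c ∧ i t = v) := by
  funext q
  apply propext
  constructor
  · rintro ⟨p, hp, h⟩
    cases p with
    | s => rw [h]; exact trivial
    | C j => rw [h]; exact hp
    | f => exact hp.elim
    | P t' =>
      obtain ⟨hc, rfl⟩ := hp
      obtain ⟨t'', h1, h2, h3⟩ := h
      obtain rfl := Fin.castSucc_injective _ h1
      rw [h3]
      exact ⟨⟨hc, h2⟩, rfl⟩
    | K t v => exact hp.elim
  · intro h
    cases q with
    | s => exact ⟨.s, trivial, rfl⟩
    | C j => exact ⟨.C j, h, rfl⟩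
    | f => exact h.elim
    | P t' =>
      obtain ⟨⟨h1, h2⟩, rfl⟩ := h
      exact ⟨.P t.castSucc, ⟨h1, rfl⟩, t, rfl, h2, rfl⟩
    | K t v => exact h.elim

theorem nx_ε (i : Fin r → Bool) (T : Fin r → Prop) (J : Finset (Fin r)) (c : Prop) :
    nx i (mid T (Fin.last r) c) (.ε J) = base (fun j => T j ∨ (c ∧ j ∈ J)) := by
  funext q
  apply propext
  constructor
  · rintro ⟨p, hp, h⟩
    cases p with
    | s => rw [h]; exact trivial
    | C j => rw [h]; exact Or.inl hp
    | f => exact hp.elim
    | P t' =>
      obtain ⟨hc, rfl⟩ := hp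
      obtain ⟨-, j, h2, rfl⟩ := h
      exact Or.inr ⟨hc, h2⟩
    | K t v => exact hp.elim
  · intro h
    cases q with
    | s => exact ⟨.s, trivial, rfl⟩
    | C j =>
      rcases h with h | ⟨h1, h2⟩
      · exact ⟨.C j, h, rfl⟩
      · exact ⟨.P (Fin.last r), ⟨h1, rfl⟩, rfl, j, h2, rfl⟩
    | f => exact h.elim
    | P t' => exact h.elim
    | K t v => exact h.elim

theorem nx_D (i i' : Fin r → Bool) : nx i (fun q => q = .s) (.D i') = base (fun _ => False) := by
  funext q
  apply propext
  constructor
  · rintro ⟨p, rfl, h⟩
    rw [h]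
    exact trivial
  · intro h
    cases q with
    | s => exact ⟨.s, rfl, rfl⟩
    | C j => exact h.elim
    | f => exact h.elim
    | P t' => exact h.elim
    | K t v => exact h.elim

/-- the tests of the first `n` bits -/
def tests (i' : Fin r → Bool) (n : ℕ) : List (Al r) :=
  ((List.finRange r).take n).map fun t => .τ (i' t)

theorem fold_tests (i i' : Fin r → Bool) (T : Fin r → Prop) (n : ℕ) (hn : n < r + 1) :
    (tests i' n).foldl (nx i) (mid T 0 True) =
      mid T ⟨n, hn⟩ (∀ t : Fin r, t.1 < n → i t = i' t) := by
  induction n with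
  | zero =>
    show mid T 0 True = _
    congr 1
    simp
  | succ n ih =>
    have hn' : n < r := by omega
    have h1 : tests i' (n + 1) = tests i' n ++ [.τ (i' ⟨n, hn'⟩)] := by
      unfold tests
      rw [List.take_add_one, List.getElem?_eq_getElem (by simpa using hn')]
      simp
    rw [h1, List.foldl_append, ih (by omega), List.foldl_cons, List.foldl_nil]
    rw [show (⟨n, by omega⟩ : Fin (r + 1)) = (⟨n, hn'⟩ : Fin r).castSucc from rfl, nx_τ]
    congr 1
    apply propext
    constructor
    · rintro ⟨h2, h3⟩ t ht
      rcases Nat.lt_or_ge t.1 n with h4 | h4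
      · exact h2 t h4
      · have : t = ⟨n, hn'⟩ := Fin.ext (by simp only; omega)
        rw [this]
        exact h3
    · intro h2
      exact ⟨fun t ht => h2 t (by omega), h2 ⟨n, hn'⟩ (by simp)⟩

/-- the block of `i'` -/
def block (F : (Fin r → Bool) → Finset (Fin r)) (i' : Fin r → Bool) : List (Al r) :=
  .b :: (tests i' r ++ [.ε (F i')])

theorem fold_block (i i' : Fin r → Bool) (F : (Fin r → Bool) → Finset (Fin r))
    (T : Fin r → Prop) : (block F i').foldl (nx i) (base T) =
      base (fun j => T j ∨ (i = i' ∧ j ∈ F i')) := by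
  rw [block, List.foldl_cons, nx_b, List.foldl_append, fold_tests i i' T r (by omega),
    List.foldl_cons, List.foldl_nil]
  rw [show (⟨r, by omega⟩ : Fin (r + 1)) = Fin.last r from rfl, nx_ε]
  congr 1
  funext j
  apply propext
  have : (∀ t : Fin r, t.1 < r → i t = i' t) ↔ i = i' := by
    constructor
    · intro h
      funext t
      exact h t t.2
    · rintro rfl t _
      rfl
  rw [this]

/-- the word of `F` -/
noncomputable def word (F : (Fin r → Bool) → Finset (Fin r)) : List (Al r) :=
  (Finset.univ : Finset (Fin r → Bool)).toList.flatMap (block F)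

theorem fold_blocks (i : Fin r → Bool) (F : (Fin r → Bool) → Finset (Fin r))
    (l : List (Fin r → Bool)) : ∀ T : Fin r → Prop, (l.flatMap (block F)).foldl (nx i) (base T) =
      base (fun j => T j ∨ (i ∈ l ∧ j ∈ F i)) := by
  induction l with
  | nil =>
    intro T
    show base T = _
    congr 1
    funext j
    simp
  | cons i' l ih =>
    intro T
    rw [List.flatMap_cons, List.foldl_append, fold_block, ih]
    congr 1
    funext j
    apply propext
    rw [List.mem_cons]
    constructor
    · rintro ((h | ⟨rfl, h⟩) | ⟨h1, h2⟩)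
      · exact Or.inl h
      · exact Or.inr ⟨Or.inl rfl, h⟩
      · exact Or.inr ⟨Or.inr h1, h2⟩
    · rintro (h | ⟨rfl | h1, h2⟩)
      · exact Or.inl (Or.inl h)
      · exact Or.inl (Or.inr ⟨rfl, h2⟩)
      · exact Or.inr ⟨h1, h2⟩

theorem sem_word (i : Fin r → Bool) (F : (Fin r → Bool) → Finset (Fin r)) :
    Sem i (.D i :: word F) = base (fun j => j ∈ F i) := by
  rw [Sem, List.foldl_cons, nx_D, word, fold_blocks]
  congr 1
  funext j
  simp

theorem length_word (F : (Fin r → Bool) → Finset (Fin r)) :
    (word F).length = (r + 2) * 2 ^ r := by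
  have hb : ∀ i', (block F i').length = r + 2 := by
    intro i'
    simp [block, tests]
  rw [word, List.length_flatMap]
  have : (Finset.univ.toList.map fun i' : Fin r → Bool => (block F i').length) =
      Finset.univ.toList.map fun _ : Fin r → Bool => r + 2 := by
    apply List.map_congr_left
    intro i' _
    exact hb i'
  rw [this, List.map_const', List.sum_replicate, Finset.length_toList, Finset.card_univ,
    Fintype.card_fun, Fintype.card_bool, Fintype.card_fin, smul_eq_mul, mul_comm]

theorem noD_word (F : (Fin r → Bool) → Finset (Fin r)) (j : Fin r) :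
    ∀ a ∈ word F ++ [.z j], NoD a := by
  intro a ha i h
  subst h
  simp only [word, block, tests, List.mem_append, List.mem_flatMap, List.mem_cons,
    List.mem_map, List.not_mem_nil, or_false, reduceCtorEq, and_false, exists_false]
    at ha

/-- The witness decides membership. -/
theorem acc_word (F : (Fin r → Bool) → Finset (Fin r)) (i : Fin r → Bool) (j : Fin r) :
    acc (wit r) (.D i :: word F ++ [.z j]) ↔ j ∈ F i := by
  rw [List.cons_append, acc_iff (noD_word F j), ← List.cons_append, sem_snoc, sem_word]
  constructor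
  · rintro ⟨p, hp, h⟩
    cases p with
    | s => exact h.elim
    | C j' =>
      obtain ⟨rfl, -⟩ := h
      exact hp
    | f => exact hp.elim
    | P t => exact hp.elim
    | K t v => exact hp.elim
  · intro h
    exact ⟨.C j, h, rfl, rfl⟩

theorem card_Qs (r : ℕ) : Fintype.card (Qs r) = 4 * r + 3 := by
  let e : Qs r ≃ Unit ⊕ Unit ⊕ Fin (r + 1) ⊕ Fin r ⊕ Fin r × Bool :=
    { toFun := fun q => match q with
        | .s => .inl ()
        | .f => .inr (.inl ())
        | .P t => .inr (.inr (.inl t))
        | .C j => .inr (.inr (.inr (.inl j)))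
        | .K t v => .inr (.inr (.inr (.inr (t, v))))
      invFun := fun q => match q with
        | .inl () => .s
        | .inr (.inl ()) => .f
        | .inr (.inr (.inl t)) => .P t
        | .inr (.inr (.inr (.inl j))) => .C j
        | .inr (.inr (.inr (.inr (t, v)))) => .K t v
      left_inv := fun q => by cases q <;> rfl
      right_inv := fun q => by rcases q with _ | _ | _ | _ | _ <;> rfl }
  rw [Fintype.card_congr e]
  simp
  omega

end Pool.Agent.Y527.AM
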