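import Pool.Agent.Y527.AM.Count
import Pool.Agent.Y527.AM.Word

/-!
# Always-marking 1-limited automata: the lower bound
-/

set_option autoImplicit false

namespace Pool.Agent.Y527.AM

open Relation

variable {Q Q' A A' : Type}

open Classical in
/-- transport to other types -/
noncomputable def tr [Fintype Q'] (N : Aut Q A) (e : Q → Q') (g : A' → A) : Aut Q' A' where
  L := fun q => Finset.univ.filter fun y => ∃ x x', e x = q ∧ e x' = y.1 ∧ (x', y.2) ∈ N.L x
  R := fun q => Finset.univ.filter fun y => ∃ x x', e x = q ∧ e x' = y.1 ∧ (x', y.2) ∈ N.R x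
  U := fun q a => Finset.univ.filter fun y => ∃ x x', e x = q ∧ e x' = y.1 ∧ (x', y.2) ∈ N.U x (g a)
  M := fun q a => Finset.univ.filter fun y => ∃ x x', e x = q ∧ e x' = y.1 ∧ (x', y.2) ∈ N.M x (g a)
  I := e N.I
  F := Finset.univ.filter fun y => ∃ x ∈ N.F, e x = y

theorem step_tr [Fintype Q'] {N : Aut Q A} {e : Q → Q'} (he : Function.Injective e)
    {g : A' → A} {w : List A'} {x : Q × ℕ × ℕ} {y : Q' × ℕ × ℕ} :
    step (tr N e g) w (e x.1, x.2) y ↔ ∃ z : Q × ℕ × ℕ, y = (e z.1, z.2) ∧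
      step N (w.map g) x z := by
  classical
  obtain ⟨x1, x2, x3⟩ := x
  obtain ⟨y1, y2, y3⟩ := y
  constructor
  · rintro (⟨h1, h2, h3, h4⟩ | ⟨h1, h2, h3, h4⟩ | ⟨a, ha, hl, b, hb, hp, hj⟩)
    · simp only [tr, Finset.mem_filter, Finset.mem_univ, true_and] at h2
      obtain ⟨x0, x0', hx, rfl, h5⟩ := h2
      obtain rfl := he hx
      exact ⟨(x0', y2, y3), rfl, Or.inl ⟨h1, h5, h3, h4⟩⟩
    · simp only [tr, Finset.mem_filter, Finset.mem_univ, true_and] at h2
      obtain ⟨x0, x0', hx, rfl, h5⟩ := h2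
      obtain rfl := he hx
      refine ⟨(x0', y2, y3), rfl, Or.inr (Or.inl ⟨?_, h5, ?_, h4⟩)⟩
      · rw [List.length_map]; exact h1
      · rw [List.length_map]; exact h3
    · simp only at hb
      have hb' : ∃ x0 x0', e x0 = e x1 ∧ e x0' = y1 ∧
          (x0', b) ∈ (if x2 ≤ x3 then N.M x0 (g a) else N.U x0 (g a)) := by
        split_ifs at hb with hle
        · simp only [tr, Finset.mem_filter, Finset.mem_univ, true_and] at hb
          obtain ⟨x0, x0', hx, h4, h5⟩ := hb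
          exact ⟨x0, x0', hx, h4, by rw [if_pos hle]; exact h5⟩
        · simp only [tr, Finset.mem_filter, Finset.mem_univ, true_and] at hb
          obtain ⟨x0, x0', hx, h4, h5⟩ := hb
          exact ⟨x0, x0', hx, h4, by rw [if_neg hle]; exact h5⟩
      obtain ⟨x0, x0', hx, rfl, h5⟩ := hb'
      obtain rfl := he hx
      refine ⟨(x0', y2, y3), rfl, Or.inr (Or.inr ⟨g a, ha, ?_, b, h5, hp, hj⟩)⟩
      rw [List.getElem?_map]
      simp only at hl
      rw [hl]
      rfl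
  · rintro ⟨⟨z1, z2, z3⟩, hz, h⟩
    simp only [Prod.mk.injEq] at hz
    obtain ⟨rfl, rfl, rfl⟩ := hz
    rcases h with (⟨h1, h2, h3, h4⟩ | ⟨h1, h2, h3, h4⟩ | ⟨a, ha, hl, b, hb, hp, hj⟩)
    · refine Or.inl ⟨h1, ?_, h3, h4⟩
      simp only [tr, Finset.mem_filter, Finset.mem_univ, true_and]
      exact ⟨x1, z1, rfl, rfl, h2⟩
    · rw [List.length_map] at h1 h3
      refine Or.inr (Or.inl ⟨h1, ?_, h3, h4⟩)
      simp only [tr, Finset.mem_filter, Finset.mem_univ, true_and]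
      exact ⟨x1, z1, rfl, rfl, h2⟩
    · simp only at hl hb
      rw [List.getElem?_map, Option.map_eq_some_iff] at hl
      obtain ⟨a', hl', rfl⟩ := hl
      refine Or.inr (Or.inr ⟨a', ha, hl', b, ?_, hp, hj⟩)
      simp only
      split_ifs at hb ⊢ with hle
      · simp only [tr, Finset.mem_filter, Finset.mem_univ, true_and]
        exact ⟨x1, z1, rfl, rfl, hb⟩
      · simp only [tr, Finset.mem_filter, Finset.mem_univ, true_and]
        exact ⟨x1, z1, rfl, rfl, hb⟩

theorem acc_tr [Fintype Q'] {N : Aut Q A} {e : Q → Q'} (he : Function.Injective e)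
    {g : A' → A} {w : List A'} : acc (tr N e g) w ↔ acc N (w.map g) := by
  classical
  constructor
  · rintro ⟨q, i, j, h1, h2, q', h3, h4⟩
    have key : ∀ y, ReflTransGen (step (tr N e g) w) (e N.I, 1, 0) y →
        ∃ z : Q × ℕ × ℕ, y = (e z.1, z.2) ∧ ReflTransGen (step N (w.map g)) (N.I, 1, 0) z := by
      intro y hy
      induction hy with
      | refl => exact ⟨_, rfl, ReflTransGen.refl⟩
      | tail _ hcd ih =>
        obtain ⟨z, rfl, hz⟩ := ih
        obtain ⟨z', rfl, hz'⟩ := (step_tr he).1 hcd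
        exact ⟨z', rfl, hz.tail hz'⟩
    obtain ⟨⟨z1, z2, z3⟩, hz, hz'⟩ := key _ h1
    simp only [Prod.mk.injEq] at hz
    obtain ⟨rfl, rfl, rfl⟩ := hz
    simp only [tr, Finset.mem_filter, Finset.mem_univ, true_and] at h3 h4
    obtain ⟨x, hx, rfl⟩ := h3
    obtain ⟨x0, x0', h5, h6, h7⟩ := h4
    obtain rfl := he h5
    obtain rfl := he h6
    exact ⟨x0, _, _, hz', by rw [List.length_map]; exact h2, x0', hx, h7⟩
  · rintro ⟨q, i, j, h1, h2, q', h3, h4⟩
    rw [List.length_map] at h2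
    refine ⟨e q, i, j, ?_, h2, e q', ?_, ?_⟩
    · have key : ∀ c d : Q × ℕ × ℕ, step N (w.map g) c d →
          step (tr N e g) w (e c.1, c.2) (e d.1, d.2) := fun c d h =>
        (step_tr he).2 ⟨d, rfl, h⟩
      exact ReflTransGen.lift (fun c : Q × ℕ × ℕ => (e c.1, c.2)) key _ _ h1
    · simp only [tr, Finset.mem_filter, Finset.mem_univ, true_and]
      exact ⟨q', h3, rfl⟩
    · simp only [tr, Finset.mem_filter, Finset.mem_univ, true_and]
      exact ⟨q, q', rfl, rfl, h4⟩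

theorem num {r m : ℕ} (hr : 4 ≤ r)
    (h : (2 ^ r) ^ (2 ^ r) ≤ (2 * m + 1) ^ (2 * m) * (m + 1) ^ (2 ^ r)) :
    2 ^ (r / 2) ≤ m + 1 := by
  by_contra hcon
  push Not at hcon
  set k := r / 2 with hk
  have hk2 : 2 ≤ k := by omega
  have h1 : (2 * m + 1) ^ (2 * m) ≤ (2 ^ (k + 1)) ^ (2 * 2 ^ k) := by
    refine (Nat.pow_le_pow_left (m := 2 ^ (k + 1)) ?_ _).trans
      (Nat.pow_le_pow_right (by positivity) (by omega))
    rw [pow_succ]
    omega
  have h2 : (m + 1) ^ (2 ^ r) ≤ (2 ^ k) ^ (2 ^ r) := Nat.pow_le_pow_left hcon.le _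
  have h3 := h.trans (Nat.mul_le_mul h1 h2)
  rw [← pow_mul, ← pow_mul, ← pow_mul, ← pow_add] at h3
  have h4 := (Nat.pow_le_pow_iff_right (by norm_num : 1 < 2)).1 h3
  have h5 : 2 ^ (2 * k) ≤ 2 ^ r := Nat.pow_le_pow_right (by norm_num) (by omega)
  have h6 : 2 ^ (2 * k) = 2 ^ k * 2 ^ k := by rw [two_mul, pow_add]
  have h7 : 4 ≤ 2 ^ k := by
    calc 4 = 2 ^ 2 := by norm_num
      _ ≤ 2 ^ k := Nat.pow_le_pow_right (by norm_num) hk2
  have h8 : (2 * k) * 2 ^ r ≤ r * 2 ^ r := Nat.mul_le_mul_right _ (by omega)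
  have h9 : k * (2 ^ k * 2 ^ k) ≤ k * 2 ^ r := Nat.mul_le_mul_left _ (h6 ▸ h5)
  have h10 : k * (4 * 2 ^ k) ≤ k * (2 ^ k * 2 ^ k) :=
    Nat.mul_le_mul_left _ (Nat.mul_le_mul_right _ h7)
  nlinarith [Nat.mul_le_mul_right (2 ^ k) hk2]

/-- The lower bound for all `n`: with `r` bits, `4 r + 3` states. -/
theorem main (n r : ℕ) (hr : 4 ≤ r) (hn : 4 * r + 3 ≤ n) :
    ∃ k : ℕ, ∃ N : Aut (Fin n) (Fin k), ∀ (m : ℕ) (N' : Aut (Fin m) (Fin k)), Det N' →
      (∀ w, acc N w ↔ acc N' w) → 2 ^ (r / 2) ≤ m + 1 := by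
  classical
  have hcard : Fintype.card (Qs r) ≤ Fintype.card (Fin n) := by
    rw [card_Qs, Fintype.card_fin]
    exact hn
  obtain ⟨e⟩ := Function.Embedding.nonempty_of_card_le hcard
  let f : Al r ≃ Fin (Fintype.card (Al r)) := Fintype.equivFin _
  refine ⟨Fintype.card (Al r), tr (wit r) e f.symm, fun m N' hN' h => ?_⟩
  have hmap : ∀ w : List (Al r), (w.map f).map f.symm = w := by
    intro w
    rw [List.map_map]
    simp
  have h1 := lower r hN' (X := Fin r → Bool) (fun i => f (.D i)) (fun F => (word F).map f)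
    ((r + 2) * 2 ^ r) (fun F => by rw [List.length_map, length_word])
    (by
      have : 0 < 2 ^ r := by positivity
      nlinarith) (fun j => f (.z j)) (fun F i j => by
      rw [← h]
      have e1 : (f (.D i) :: (word F).map f ++ [f (.z j)] : List (Fin (Fintype.card (Al r)))) =
          (Al.D i :: word F ++ [Al.z j]).map f := by simp
      rw [e1, acc_tr e.injective, hmap]
      exact acc_word F i j)
  rw [Fintype.card_fin, Fintype.card_fun, Fintype.card_bool, Fintype.card_fin] at h1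
  exact num hr h1

end Pool.Agent.Y527.AM
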