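import Pool.Agent.Y527.AM.Base

/-!
# Always-marking 1-limited automata: the witness
-/

set_option autoImplicit false

namespace Pool.Agent.Y527.AM

open Relation

/-- the states: source, accepting state, tokens, stored elements, queries -/
inductive Qs (r : ℕ) : Type
  | s : Qs r
  | f : Qs r
  | P (t : Fin (r + 1)) : Qs r
  | C (j : Fin r) : Qs r
  | K (t : Fin r) (v : Bool) : Qs r
  deriving DecidableEq, Fintype

/-- the letters: dictionary, start of a token, test, emission, question -/
inductive Al (r : ℕ) : Type
  | D (i : Fin r → Bool) : Al r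
  | b : Al r
  | τ (v : Bool) : Al r
  | ε (J : Finset (Fin r)) : Al r
  | z (j : Fin r) : Al r
  deriving DecidableEq, Fintype

variable {r : ℕ}

/-- moves on unvisited cells -/
def UR : Qs r → Al r → Qs r × Bool → Prop
  | .s, .D _, y => y = (.s, true)
  | .s, .b, y => y = (.s, true) ∨ y = (.P 0, true)
  | .s, .τ _, y => y = (.s, true)
  | .s, .ε _, y => y = (.s, true)
  | .C j, .b, y => y = (.C j, true)
  | .C j, .τ _, y => y = (.C j, true)
  | .C j, .ε _, y => y = (.C j, true)
  | .C j, .z j', y => j = j' ∧ y = (.f, true)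
  | .P t, .τ v, y => ∃ t' : Fin r, t = t'.castSucc ∧ y = (.K t' v, false)
  | .P t, .ε J, y => t = Fin.last r ∧ ∃ j ∈ J, y = (.C j, true)
  | _, _, _ => False

/-- moves on visited cells -/
def MR : Qs r → Al r → Qs r × Bool → Prop
  | .K t v, .D i, y => i t = v ∧ y = (.P t.succ, true)
  | .K t v, _, y => y = (.K t v, false)
  | .P t, _, y => y = (.P t, true)
  | _, _, _ => False

open Classical in
/-- the automaton -/
noncomputable def wit (r : ℕ) : Aut (Qs r) (Al r) where
  L := fun _ => ∅
  R := fun q => if q = .f then {(.f, true)} else ∅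
  U := fun q a => Finset.univ.filter (UR q a)
  M := fun q a => Finset.univ.filter (MR q a)
  I := .s
  F := {.f}

/-- the moves of the one-way automaton with the dictionary `i` -/
def Ow (i : Fin r → Bool) : Qs r → Al r → Qs r → Prop
  | .s, .D _, q => q = .s
  | .s, .b, q => q = .s ∨ q = .P 0
  | .s, .τ _, q => q = .s
  | .s, .ε _, q => q = .s
  | .C j, .b, q => q = .C j
  | .C j, .τ _, q => q = .C j
  | .C j, .ε _, q => q = .C j
  | .C j, .z j', q => j = j' ∧ q = .f
  | .P t, .τ v, q => ∃ t' : Fin r, t = t'.castSucc ∧ i t' = v ∧ q = .P t'.succ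
  | .P t, .ε J, q => t = Fin.last r ∧ ∃ j ∈ J, q = .C j
  | _, _, _ => False

/-- one step of the set of states -/
def nx (i : Fin r → Bool) (S : Qs r → Prop) (a : Al r) : Qs r → Prop := fun q => ∃ p, S p ∧ Ow i p a q

/-- the states after a word -/
def Sem (i : Fin r → Bool) (w : List (Al r)) : Qs r → Prop := w.foldl (nx i) (fun q => q = .s)

theorem sem_snoc (i : Fin r → Bool) (w : List (Al r)) (a : Al r) :
    Sem i (w ++ [a]) = nx i (Sem i w) a := by
  rw [Sem, List.foldl_append]
  rfl

/-- the letter is not a dictionary -/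
def NoD (a : Al r) : Prop := ∀ i, a ≠ .D i

theorem mem_U {q : Qs r} {a : Al r} {y : Qs r × Bool} : y ∈ (wit r).U q a ↔ UR q a y := by
  classical
  simp [wit]
theorem mem_M {q : Qs r} {a : Al r} {y : Qs r × Bool} : y ∈ (wit r).M q a ↔ MR q a y := by
  classical
  simp [wit]

/-- The invariant of the computations. -/
def Inv (i : Fin r → Bool) (w : List (Al r)) (c : Qs r × ℕ × ℕ) : Prop :=
  c.2.2 ≤ w.length ∧ ((c.2.1 = c.2.2 + 1 ∧ Sem i (w.take c.2.2) c.1) ∨
    (1 ≤ c.2.1 ∧ c.2.1 ≤ c.2.2 ∧ ∃ t v, c.1 = .K t v ∧ w[c.2.2 - 1]? = some (.τ v) ∧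
      Sem i (w.take (c.2.2 - 1)) (.P t.castSucc)) ∨
    (1 ≤ c.2.1 ∧ c.2.1 ≤ c.2.2 ∧ ∃ t, c.1 = .P t ∧ Sem i (w.take c.2.2) (.P t)))

theorem sem_take_succ (i : Fin r → Bool) {w : List (Al r)} {J : ℕ} {a : Al r}
    (h : w[J]? = some a) : Sem i (w.take (J + 1)) = nx i (Sem i (w.take J)) a := by
  rw [List.take_add_one, h]
  exact sem_snoc i _ a

theorem sem_zero (i : Fin r → Bool) (w : List (Al r)) (q : Qs r) :
    Sem i (w.take 0) q ↔ q = .s := by
  rw [List.take_zero]
  rfl

/-- right moves on unvisited cells -/
theorem UR_right {i : Fin r → Bool} {q q' : Qs r} {a : Al r} (h : UR q a (q', true)) :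
    Ow i q a q' := by
  cases q <;> cases a <;> simp_all [UR, Ow]

/-- left moves on unvisited cells -/
theorem UR_left {q q' : Qs r} {a : Al r} (h : UR q a (q', false)) :
    ∃ (t : Fin r) (v : Bool), q = .P t.castSucc ∧ a = .τ v ∧ q' = .K t v := by
  cases q <;> cases a <;> simp_all [UR]

theorem inv_step {i : Fin r → Bool} {y : List (Al r)} (hy : ∀ a ∈ y, NoD a)
    {c d : Qs r × ℕ × ℕ} (hc : Inv i (.D i :: y) c) (h : step (wit r) (.D i :: y) c d) :
    Inv i (.D i :: y) d := by
  obtain ⟨q, p, J⟩ := c
  obtain ⟨q', p', J'⟩ := d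
  obtain ⟨hJ, hc⟩ := hc
  simp only at hJ hc
  rcases h with ⟨h1, -⟩ | ⟨h1, h2, -⟩ | ⟨a, ha, hl, b, hb, hp, hj⟩
  · simp only at h1
    omega
  · exfalso
    simp only at h1 h2
    simp only [wit] at h2
    split_ifs at h2 <;> simp at h2
  · simp only at ha hl hb hp hj
    rcases hc with ⟨h1, h2⟩ | ⟨h0, h1, t, v, rfl, h2, h3⟩ | ⟨h0, h1, t, rfl, h2⟩
    · -- a new cell
      subst h1
      rw [if_neg (by omega), mem_U] at hb
      rw [Nat.add_sub_cancel] at hl
      have hlen : J < (Al.D i :: y).length := by
        by_contra hcon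
        rw [List.getElem?_eq_none (by omega)] at hl
        cases hl
      have hJ' : J' = J + 1 := by omega
      subst hJ'
      cases b with
      | true =>
        rw [if_pos rfl] at hp
        refine ⟨by simp only; omega, Or.inl ⟨by simp only; omega, ?_⟩⟩
        simp only
        rw [sem_take_succ i hl]
        exact ⟨q, h2, UR_right hb⟩
      | false =>
        rw [if_neg (by simp)] at hp
        obtain ⟨t, v, rfl, rfl, rfl⟩ := UR_left hb
        have hJ0 : J ≠ 0 := by
          rintro rfl
          rw [sem_zero] at h2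
          cases h2
        refine ⟨by simp only; omega, Or.inr (Or.inl ⟨by simp only; omega, by simp only; omega, t, v,
          rfl, ?_, ?_⟩)⟩
        · simpa using hl
        · simpa using h2
    · -- a query
      rw [if_pos (by omega), mem_M] at hb
      have hJ' : J' = J := by omega
      subst hJ'
      by_cases hp1 : p = 1
      · subst hp1
        have : a = .D i := by
          simp at hl
          exact hl.symm
        subst this
        obtain ⟨h4, h5⟩ := hb
        simp only [Prod.mk.injEq] at h5
        obtain ⟨rfl, rfl⟩ := h5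
        rw [if_pos rfl] at hp
        have hJ2 : 2 ≤ J' := by
          by_contra hcon
          have : J' = 1 := by omega
          subst this
          simp at h2
        refine ⟨hJ, Or.inr (Or.inr ⟨by simp only; omega, by simp only; omega, t.succ, rfl, ?_⟩)⟩
        simp only
        have e : J' = (J' - 1) + 1 := by omega
        rw [e, sem_take_succ i h2]
        exact ⟨_, h3, t, rfl, h4, rfl⟩
      · have hno : NoD a := by
          apply hy
          obtain ⟨p0, rfl⟩ : ∃ p0, p = p0 + 2 := ⟨p - 2, by omega⟩
          have : (Al.D i :: y)[p0 + 1]? = some a := hl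
          rw [List.getElem?_cons_succ] at this
          exact List.mem_of_getElem? this
        have hb' : (q', b) = (.K t v, false) := by
          cases a with
          | D i' => exact absurd rfl (hno i')
          | b => exact hb
          | τ v' => exact hb
          | ε J => exact hb
          | z j => exact hb
        simp only [Prod.mk.injEq] at hb'
        obtain ⟨rfl, rfl⟩ := hb'
        rw [if_neg (by simp)] at hp
        refine ⟨hJ, Or.inr (Or.inl ⟨by simp only; omega, by simp only; omega, t, v, rfl, h2, h3⟩)⟩
    · -- a token on its way back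
      rw [if_pos (by omega), mem_M] at hb
      have hJ' : J' = J := by omega
      subst hJ'
      have hb' : (q', b) = (.P t, true) := by
        cases a <;> exact hb
      simp only [Prod.mk.injEq] at hb'
      obtain ⟨rfl, rfl⟩ := hb'
      rw [if_pos rfl] at hp
      by_cases hpJ : p + 1 ≤ J'
      · refine ⟨hJ, Or.inr (Or.inr ⟨by simp only; omega, by simp only; omega, t, rfl, h2⟩)⟩
      · refine ⟨hJ, Or.inl ⟨by simp only; omega, h2⟩⟩

/-- soundness -/
theorem sound {i : Fin r → Bool} {y : List (Al r)} (hy : ∀ a ∈ y, NoD a)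
    (h : acc (wit r) (.D i :: y)) : Sem i (.D i :: y) .f := by
  obtain ⟨q, p, J, h1, h2, q', h3, h4⟩ := h
  have hinv : Inv i (.D i :: y) (q, p, J) := by
    have key : ∀ c, ReflTransGen (step (wit r) (.D i :: y)) ((wit r).I, 1, 0) c →
        Inv i (.D i :: y) c := by
      intro c hc
      induction hc with
      | refl => exact ⟨Nat.zero_le _, Or.inl ⟨rfl, (sem_zero _ _ _).2 rfl⟩⟩
      | tail _ hcd ih => exact inv_step hy ih hcd
    exact key _ h1
  obtain ⟨hJ, hc⟩ := hinv
  simp only at hJ hc
  have hq : q = .f := by
    simp only [wit] at h4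
    by_contra hcon
    rw [if_neg hcon] at h4
    simp at h4
  subst hq
  rcases hc with ⟨h5, h6⟩ | ⟨_, h5, _⟩ | ⟨_, h5, _⟩
  · have : J = (Al.D i :: y).length := by omega
    rw [this, List.take_length] at h6
    exact h6
  · omega
  · omega

/-- completeness -/
theorem reach {i : Fin r → Bool} {y : List (Al r)} (hy : ∀ a ∈ y, NoD a) :
    ∀ (J : ℕ), J ≤ (Al.D i :: y).length → ∀ q, Sem i ((Al.D i :: y).take J) q →
      ReflTransGen (step (wit r) (.D i :: y)) ((wit r).I, 1, 0) (q, J + 1, J) := by
  intro J
  induction J with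
  | zero =>
    intro _ q hq
    rw [sem_zero] at hq
    subst hq
    exact ReflTransGen.refl
  | succ J ih =>
    intro hJ q' hq'
    obtain ⟨a, ha⟩ : ∃ a, (Al.D i :: y)[J]? = some a :=
      ⟨_, List.getElem?_eq_getElem (by omega)⟩
    rw [sem_take_succ i ha] at hq'
    obtain ⟨q, hq, how⟩ := hq'
    have h1 := ih (by omega) q hq
    have direct : ∀ q'' : Qs r, UR q a (q'', true) →
        ReflTransGen (step (wit r) (.D i :: y)) ((wit r).I, 1, 0) (q'', J + 1 + 1, J + 1) := by
      intro q'' hU
      refine h1.tail (Or.inr (Or.inr ⟨a, by simp, by simpa using ha, true, ?_, rfl, ?_⟩))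
      · rw [if_neg (by simp), mem_U]
        exact hU
      · simp
    have hcase : UR q a (q', true) ∨ ∃ (t : Fin r) (v : Bool), q = .P t.castSucc ∧ a = .τ v ∧
        i t = v ∧ q' = .P t.succ := by
      cases q with
      | s => cases a <;> simp_all [UR, Ow]
      | f => cases a <;> simp_all [UR, Ow]
      | P t =>
        cases a with
        | τ v =>
          obtain ⟨t', h2, h3, h4⟩ := how
          exact Or.inr ⟨t', v, by rw [h2], rfl, h3, h4⟩
        | ε J =>
          obtain ⟨h2, j, hj, h4⟩ := how
          exact Or.inl ⟨h2, j, hj, by rw [h4]⟩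
        | D i => exact how.elim
        | b => exact how.elim
        | z j => exact how.elim
      | C j => cases a <;> simp_all [UR, Ow]
      | K t v => cases a <;> exact how.elim
    rcases hcase with h2 | ⟨t, v, rfl, rfl, hv, rfl⟩
    · exact direct q' h2
    · have hJ0 : J ≠ 0 := by
        rintro rfl
        rw [sem_zero] at hq
        cases hq
      -- to the left
      have h3 : ReflTransGen (step (wit r) (.D i :: y)) ((wit r).I, 1, 0)
          (.K t v, J, J + 1) := by
        refine h1.tail (Or.inr (Or.inr ⟨.τ v, by simp, by simpa using ha, false, ?_, ?_, ?_⟩))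
        · rw [if_neg (by simp), mem_U]
          exact ⟨t, rfl, rfl⟩
        · simp
        · simp
      have hleft : ∀ k, k < J → ReflTransGen (step (wit r) (.D i :: y)) ((wit r).I, 1, 0)
          (.K t v, J - k, J + 1) := by
        intro k
        induction k with
        | zero => intro _; exact h3
        | succ k ihk =>
          intro hk
          obtain ⟨a', ha'⟩ : ∃ a', (Al.D i :: y)[J - k - 1]? = some a' :=
            ⟨_, List.getElem?_eq_getElem (by omega)⟩
          have hno : NoD a' := by
            apply hy
            obtain ⟨p0, hp0⟩ : ∃ p0, J - k - 1 = p0 + 1 := ⟨J - k - 2, by omega⟩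
            rw [hp0, List.getElem?_cons_succ] at ha'
            exact List.mem_of_getElem? ha'
          refine (ihk (by omega)).tail (Or.inr (Or.inr ⟨a', by simp only; omega, ha', false,
            ?_, ?_, ?_⟩))
          · rw [if_pos (show J - k ≤ J + 1 by omega), mem_M]
            cases a' with
            | D i' => exact absurd rfl (hno i')
            | b => exact rfl
            | τ v' => exact rfl
            | ε J => exact rfl
            | z j => exact rfl
          · simp only [Bool.false_eq_true, if_false]
            omega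
          · show J + 1 = max (J + 1) (J - k)
            omega
      have h4 := hleft (J - 1) (by omega)
      have e1 : J - (J - 1) = 1 := by omega
      rw [e1] at h4
      have h5 : ReflTransGen (step (wit r) (.D i :: y)) ((wit r).I, 1, 0)
          (.P t.succ, 2, J + 1) := by
        refine h4.tail (Or.inr (Or.inr ⟨.D i, le_refl _, rfl, true, ?_, rfl, ?_⟩))
        · rw [if_pos (show 1 ≤ J + 1 by omega), mem_M]
          exact ⟨hv, rfl⟩
        · show J + 1 = max (J + 1) 1
          omega
      have hright : ∀ k, k ≤ J → ReflTransGen (step (wit r) (.D i :: y)) ((wit r).I, 1, 0)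
          (.P t.succ, 2 + k, J + 1) := by
        intro k
        induction k with
        | zero => intro _; exact h5
        | succ k ihk =>
          intro hk
          obtain ⟨a', ha'⟩ : ∃ a', (Al.D i :: y)[2 + k - 1]? = some a' :=
            ⟨_, List.getElem?_eq_getElem (by omega)⟩
          refine (ihk (by omega)).tail (Or.inr (Or.inr ⟨a', by simp only; omega, ha', true,
            ?_, ?_, ?_⟩))
          · rw [if_pos (show 2 + k ≤ J + 1 by omega), mem_M]
            cases a' <;> exact rfl
          · simp only [if_true]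
            omega
          · show J + 1 = max (J + 1) (2 + k)
            omega
      have h6 := hright J (le_refl _)
      have e2 : 2 + J = J + 1 + 1 := by omega
      rw [e2] at h6
      exact h6

theorem acc_iff {i : Fin r → Bool} {y : List (Al r)} (hy : ∀ a ∈ y, NoD a) :
    acc (wit r) (.D i :: y) ↔ Sem i (.D i :: y) .f := by
  refine ⟨sound hy, fun h => ?_⟩
  have h1 := reach hy (i := i) (Al.D i :: y).length (le_refl _) .f (by rwa [List.take_length])
  refine ⟨.f, _, _, h1, rfl, .f, by simp [wit], by simp [wit]⟩

end Pool.Agent.Y527.AM
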